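import Pool.Agent.MWGR.StmtsF

/-!
# Row FAL of squad MWGR (MP_23468a_al): the bit `F`
-/

set_option autoImplicit false

namespace Pool.Agent.MWGR.H15

open Pool.Agent.Helper14_MV Pool.Agent.Helper2_MV Pool.Agent.MVO Pool.Agent.MWL Pool.Agent.MWS
  Pool.Agent.MWH Pool.Agent.MWGR

theorem flatMap_rep (g : ℕ → List ℕ) (m c x : ℕ) (h : g c = [x]) :
    (List.replicate m c).flatMap g = List.replicate m x := by
  induction m with
  | zero => rfl
  | succ m ih => rw [List.replicate_succ, List.flatMap_cons, ih, h, List.replicate_succ]; rfl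

theorem rep_front {n : ℕ} (hn : 1 ≤ n) (y : ℕ) (q : List ℕ) :
    List.replicate (n + 1) y ++ q = y :: y :: (List.replicate (n - 1) y ++ q) := by
  obtain ⟨m, rfl⟩ : ∃ m, n = m + 1 := ⟨n - 1, by omega⟩
  simp [List.replicate_succ]

theorem rep_back {n : ℕ} (hn : 1 ≤ n) (y : ℕ) (q : List ℕ) :
    List.replicate (n + 1) y ++ q = List.replicate (n - 1) y ++ y :: y :: q := by
  obtain ⟨m, rfl⟩ : ∃ m, n = m + 1 := ⟨n - 1, by omega⟩
  rw [List.replicate_succ', List.replicate_succ']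
  simp

section

variable {n : ℕ} {θ : FIC}

/-- `y` which is not the first one is `y^(n+1)` -/
theorem one (hE : ExgStmt) (hB : BG n (RR θ)) (p q : List ℕ) (y : ℕ) (hy : y ∈ p) :
    RR θ (p ++ y :: q) (p ++ (List.replicate (n + 1) y ++ q)) :=
  (hE n θ hB p q y 1 (n + 1) (by
    show 1 % n = (n + 1) % n
    rw [Nat.add_mod_left])).1 hy (by omega) (by omega)

/-- insertion of `y^n` -/
theorem ins0 (hF : F1 n (RR θ)) (p w v q : List ℕ) (y : ℕ) :
    RR θ (p ++ y :: y :: (w ++ (v ++ y :: y :: q)))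
      (p ++ y :: y :: (w ++ (List.replicate n y ++ (v ++ y :: y :: q)))) := by
  have h0 : RR θ [0, 0, 2, 3, 0, 0] ([0, 0, 2] ++ (X n ++ [3, 0, 0])) := hF
  have h1 := h0.sub (fun i => if i = 0 then [y] else if i = 2 then w else v)
  rw [List.flatMap_append, List.flatMap_append, flatMap_rep _ _ 0 y (by simp)] at h1
  have h2 := RR.append (RR.refl (β := θ) p) (RR.append h1 (RR.refl (β := θ) q))
  simpa using h2

/-- insertion of `y^n`, the last letter `y` is only one -/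
theorem ins1 (hE : ExgStmt) (hB : BG n (RR θ)) (hF : F1 n (RR θ)) (p w v q : List ℕ) (y : ℕ) :
    RR θ (p ++ y :: y :: (w ++ (v ++ y :: q)))
      (p ++ y :: y :: (w ++ (List.replicate n y ++ (v ++ y :: q)))) := by
  have a1 := one hE hB (p ++ y :: y :: (w ++ v)) q y (by simp)
  rw [rep_front hB.pos] at a1
  have a2 := one hE hB (p ++ y :: y :: (w ++ (List.replicate n y ++ v))) q y (by simp)
  rw [rep_front hB.pos] at a2
  have a3 := ins0 hF p w v (List.replicate (n - 1) y ++ q) y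
  simp only [List.append_assoc, List.cons_append] at a1 a2 a3
  exact θ.trans a1 (θ.trans a3 (θ.symm a2))

/-- insertion of `y^n`, the two letters `y` are only one, but not the first one -/
theorem ins2 (hE : ExgStmt) (hB : BG n (RR θ)) (hF : F1 n (RR θ)) (p w v q : List ℕ) (y : ℕ)
    (hy : y ∈ p) : RR θ (p ++ y :: (w ++ (v ++ y :: q)))
      (p ++ y :: (w ++ (List.replicate n y ++ (v ++ y :: q)))) := by
  have a1 := one hE hB p (w ++ (v ++ y :: q)) y hy
  rw [rep_back hB.pos] at a1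
  have a2 := one hE hB p (w ++ (List.replicate n y ++ (v ++ y :: q))) y hy
  rw [rep_back hB.pos] at a2
  have a3 := ins1 hE hB hF (p ++ List.replicate (n - 1) y) w v q y
  simp only [List.append_assoc] at a1 a2 a3
  exact θ.trans a1 (θ.trans a3 (θ.symm a2))

theorem hasF (hE : ExgStmt) (hB : BG n (RR θ)) :
    Has n (FC.ofFIC θ) Bit.F ↔ F1 n (RR θ) := by
  have e1 : mw 2 (v3 2 0 2) = [0, 0, 2, 3, 0, 0] := rfl
  have e2 : mw 2 (ad n (v3 2 0 2) 1) = [0, 0, 2] ++ (List.replicate (2 * n) 0 ++ [3, 0, 0]) := by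
    simp [mw, asm, ad, v3]
  have h0 : Has n (FC.ofFIC θ) Bit.F ↔ RR θ [0, 0, 2, 3, 0, 0]
      ([0, 0, 2] ++ (List.replicate (2 * n) 0 ++ [3, 0, 0])) := by
    rw [← e2, ← e1]
    exact Iff.rfl
  have h1 : RR θ ([0, 0, 2] ++ (List.replicate (2 * n) 0 ++ [3, 0, 0]))
      ([0, 0, 2] ++ (List.replicate n 0 ++ [3, 0, 0])) :=
    (hE n θ hB [0, 0, 2] [3, 0, 0] 0 (2 * n) n (by
      show (2 * n) % n = n % n
      simp)).1 (by simp) (by have := hB.pos; omega) hB.pos
  rw [h0]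
  constructor
  · intro h
    exact θ.trans h h1
  · intro h
    exact θ.trans h (θ.symm h1)

theorem alt_split {k : ℕ} (hk : 3 ≤ k) : ∃ T, alt k = [3, 1, 4, 2, 5, 1] ++ T := by
  obtain ⟨m, rfl⟩ := Nat.exists_eq_add_of_le hk
  unfold alt
  rw [List.range_add, List.flatMap_append]
  exact ⟨_, rfl⟩

theorem es_alt (hE : ExgStmt) (hB : BG n (RR θ)) (hF : F1 n (RR θ)) {c k : ℕ} (hk : 3 ≤ k)
    (h : Es n c (RR θ)) : Ec n c (alt k) (RR θ) := by
  obtain ⟨T, hT⟩ := alt_split hk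
  have h0 : RR θ (X n ++ 1 :: (X (n + c) ++ 2 :: (X n ++ [3, 1, 2])))
    (X (n + c) ++ 2 :: (X (n + (n - 1) * c) ++ 1 :: (X (n + c) ++ [3, 1, 2]))) := h
  have h1 := h0.sub (fun i => if i = 3 then [3, 1, 4] ++ List.replicate (n - 1) 1 else [i])
  have hx : ∀ m, (X m).flatMap (fun i => if i = 3 then [3, 1, 4] ++ List.replicate (n - 1) 1
      else [i]) = X m := fun m => flatMap_rep _ m 0 0 (by simp)
  simp only [List.flatMap_append, List.flatMap_cons, List.flatMap_nil, hx] at h1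
  have h2 := RR.append h1 (RR.refl (β := θ) ([5, 1] ++ T))
  have hy : ∀ q : List ℕ, List.replicate (n - 1) 1 ++ 1 :: q = List.replicate n 1 ++ q := by
    intro q
    have : List.replicate n 1 = List.replicate (n - 1) 1 ++ [1] := by
      rw [← List.replicate_succ' (n := n - 1)]
      congr 1
      have := hB.pos
      omega
    rw [this, List.append_assoc]
    rfl
  have h3 : RR θ (X n ++ 1 :: (X (n + c) ++ 2 :: (X n ++ 3 :: 1 :: 4 ::
      (List.replicate n 1 ++ 2 :: 5 :: 1 :: T))))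
    (X (n + c) ++ 2 :: (X (n + (n - 1) * c) ++ 1 :: (X (n + c) ++ 3 :: 1 :: 4 ::
      (List.replicate n 1 ++ 2 :: 5 :: 1 :: T)))) := by
    rw [← hy]
    simpa using h2
  have a1 := ins2 hE hB hF (X n ++ 1 :: (X (n + c) ++ 2 :: (X n ++ [3]))) [4] [2, 5] T 1 (by simp)
  have a2 := ins2 hE hB hF (X (n + c) ++ 2 :: (X (n + (n - 1) * c) ++ 1 :: (X (n + c) ++ [3])))
    [4] [2, 5] T 1 (by simp)
  unfold Ec
  rw [hT]
  simp only [List.append_assoc, List.cons_append, List.nil_append] at a1 a2 ⊢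
  exact θ.trans a1 (θ.trans h3 (θ.symm a2))

end

/-- row FAL -/
theorem fal (hE : ExgStmt) : FalStmt := by
  intro n θ hB
  refine ⟨hasF hE hB, fun hF => ⟨?_, ?_, ?_, fun c k hk h => es_alt hE hB hF hk h⟩⟩
  · exact ins1 hE hB hF [] [1] [2] [3, 1] 0
  · exact ins1 hE hB hF [] [1] [2, 1, 3] [] 0
  · exact ins1 hE hB hF [] [2] [1] [0, 3, 1] 0

end Pool.Agent.MWGR.H15
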